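import Pool.Agent.Helper968.AD.Euler

set_option autoImplicit false

namespace Pool.Agent.Results.MP_f2ad72_co.AntidirectedAndRegular

open Finset

/-- (1) Sumner's statement for every antidirected tree: for all `n ≥ 2`, every tournament on
`2n-2` vertices contains every antidirected tree on `n` vertices.
(2) for all `n ≥ 2` and `N ≥ 2n-2`, every regular tournament on `N` vertices contains every
oriented tree on `n` vertices.
(3) more generally a tournament on `N` vertices which has a balanced (in-degree = out-degree)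
subdigraph `H` with more than `(n-2) N` arcs contains every oriented tree on `n` vertices. -/
theorem result :
    (∀ n : ℕ, 2 ≤ n →
      ∀ T : Digraph (Fin (2 * n - 2)),
        (∀ u v, T.Adj u v → ¬ T.Adj v u) →
        (∀ u v, u ≠ v → T.Adj u v ∨ T.Adj v u) →
        ∀ D : Digraph (Fin n),
          (∀ a b, D.Adj a b → ¬ D.Adj b a) →
          (SimpleGraph.fromRel D.Adj).IsTree →
          (∀ a b c, D.Adj a b → ¬ D.Adj b c) →
          ∃ f : Fin n → Fin (2 * n - 2),
            Function.Injective f ∧ ∀ a b, D.Adj a b → T.Adj (f a) (f b)) ∧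
    (∀ n N : ℕ, 2 ≤ n → 2 * n - 2 ≤ N →
      ∀ T : Digraph (Fin N),
        (∀ u v, T.Adj u v → ¬ T.Adj v u) →
        (∀ u v, u ≠ v → T.Adj u v ∨ T.Adj v u) →
        (∀ u, {v | T.Adj u v}.ncard = {v | T.Adj v u}.ncard) →
        ∀ D : Digraph (Fin n),
          (∀ a b, D.Adj a b → ¬ D.Adj b a) →
          (SimpleGraph.fromRel D.Adj).IsTree →
          ∃ f : Fin n → Fin N,
            Function.Injective f ∧ ∀ a b, D.Adj a b → T.Adj (f a) (f b)) ∧
    (∀ n N : ℕ, 2 ≤ n →
      ∀ T : Digraph (Fin N),
        (∀ u v, T.Adj u v → ¬ T.Adj v u) →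
        (∀ u v, u ≠ v → T.Adj u v ∨ T.Adj v u) →
        ∀ H : Digraph (Fin N), (∀ u v, H.Adj u v → T.Adj u v) →
        (∀ u, {v | H.Adj u v}.ncard = {v | H.Adj v u}.ncard) →
        (n - 2) * N < {p : Fin N × Fin N | H.Adj p.1 p.2}.ncard →
        ∀ D : Digraph (Fin n),
          (∀ a b, D.Adj a b → ¬ D.Adj b a) →
          (SimpleGraph.fromRel D.Adj).IsTree →
          ∃ f : Fin n → Fin N,
            Function.Injective f ∧ ∀ a b, D.Adj a b → T.Adj (f a) (f b)) := by
  classical
  -- arcs of a tournament
  have hcount : ∀ (N : ℕ) (T : Digraph (Fin N)), (∀ u v, T.Adj u v → ¬ T.Adj v u) →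
      (∀ u v, u ≠ v → T.Adj u v ∨ T.Adj v u) →
      2 * Nat.card {p : Fin N × Fin N // T.Adj p.1 p.2} = N * (N - 1) := by
    intro N T h1 h2
    have e1 : Nat.card {p : Fin N × Fin N // T.Adj p.1 p.2} =
        (univ.filter (fun p : Fin N × Fin N => T.Adj p.1 p.2)).card := by
      rw [Nat.card_eq_fintype_card, Fintype.card_subtype]
    have e2 : (univ.filter (fun p : Fin N × Fin N => T.Adj p.1 p.2)).card =
        (univ.filter (fun p : Fin N × Fin N => T.Adj p.2 p.1)).card := by
      apply Finset.card_bij (fun p _ => (p.2, p.1))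
      · intro p hp; simpa using hp
      · intro p _ q _ h
        simp only [Prod.mk.injEq] at h
        exact Prod.ext h.2 h.1
      · intro p hp
        exact ⟨(p.2, p.1), by simpa using hp, rfl⟩
    have e3 : Disjoint (univ.filter (fun p : Fin N × Fin N => T.Adj p.1 p.2))
        (univ.filter (fun p : Fin N × Fin N => T.Adj p.2 p.1)) := by
      rw [Finset.disjoint_left]
      intro p hp hq
      simp only [Finset.mem_filter, Finset.mem_univ, true_and] at hp hq
      exact h1 _ _ hp hq
    have e4 : (univ.filter (fun p : Fin N × Fin N => T.Adj p.1 p.2)) ∪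
        (univ.filter (fun p : Fin N × Fin N => T.Adj p.2 p.1)) = (univ : Finset (Fin N)).offDiag := by
      ext p
      simp only [Finset.mem_union, Finset.mem_filter, Finset.mem_univ, true_and,
        Finset.mem_offDiag]
      constructor
      · rintro (h | h) he
        · rw [he] at h; exact h1 _ _ h h
        · rw [he] at h; exact h1 _ _ h h
      · intro h
        exact h2 _ _ h
    have e5 := Finset.card_union_of_disjoint e3
    rw [e4, Finset.offDiag_card, Finset.card_univ, Fintype.card_fin, ← e2] at e5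
    rw [e1]
    have : N * (N - 1) = N * N - N := by rw [Nat.mul_sub, mul_one]
    omega
  have hloop : ∀ (N : ℕ) (T : Digraph (Fin N)), (∀ u v, T.Adj u v → ¬ T.Adj v u) →
      ∀ v, ¬ T.Adj v v := fun N T h v hv => h v v hv hv
  -- (3)
  have main3 : ∀ n N : ℕ, 2 ≤ n →
      ∀ T : Digraph (Fin N),
        (∀ u v, T.Adj u v → ¬ T.Adj v u) →
        ∀ H : Digraph (Fin N), (∀ u v, H.Adj u v → T.Adj u v) →
        (∀ u, {v | H.Adj u v}.ncard = {v | H.Adj v u}.ncard) →
        (n - 2) * N < Nat.card {p : Fin N × Fin N // H.Adj p.1 p.2} →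
        ∀ D : Digraph (Fin n),
          (∀ a b, D.Adj a b → ¬ D.Adj b a) →
          (SimpleGraph.fromRel D.Adj).IsTree →
          ∃ f : Fin n → Fin N,
            Function.Injective f ∧ ∀ a b, D.Adj a b → T.Adj (f a) (f b) := by
    intro n N hn T hT H hH hbal hcard D hD hTree
    have hbal' : ∀ u, AD968.deg H.Adj true u = AD968.deg H.Adj false u := by
      intro u
      have h := hbal u
      rw [Set.ncard_eq_toFinset_card', Set.ncard_eq_toFinset_card'] at h
      unfold AD968.deg AD968.Dir
      simp only [Set.toFinset_setOf] at h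
      simpa using h
    obtain ⟨f, hf, he⟩ := AD968.eulerian H.Adj (fun v hv => hloop N T hT v (hH v v hv)) hbal' (n - 1)
      (by
        rw [Fintype.card_fin]
        have : n - 1 - 1 = n - 2 := by omega
        rw [this]
        exact hcard)
      (SimpleGraph.fromRel D.Adj) hTree (by rw [Fintype.card_fin]; omega)
      (fun a b => decide (D.Adj a b)) (by
        intro a b hab
        rw [SimpleGraph.fromRel_adj] at hab
        obtain ⟨-, h | h⟩ := hab
        · simp [h, hD a b h]
        · simp [h, hD b a h])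
    refine ⟨f, hf, fun a b hab => ?_⟩
    have hne : a ≠ b := by
      rintro rfl
      exact hD a a hab hab
    have h := he a b (by rw [SimpleGraph.fromRel_adj]; exact ⟨hne, Or.inl hab⟩)
    apply hH
    simpa [AD968.Dir, hab] using h
  refine ⟨?_, ?_, ?_⟩
  · intro n hn T hT1 hT2 D hD hTree hanti
    obtain ⟨k, rfl⟩ : ∃ k, n = k + 1 := ⟨n - 1, by omega⟩
    have hc := hcount _ T hT1 hT2
    have hχ : ∀ a b, (SimpleGraph.fromRel D.Adj).Adj a b →
        decide (∃ c, D.Adj b c) = !decide (∃ c, D.Adj a c) := by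
      intro a b hab
      rw [SimpleGraph.fromRel_adj] at hab
      obtain ⟨-, h | h⟩ := hab
      · have h1 : ∃ c, D.Adj a c := ⟨b, h⟩
        have h2 : ¬ ∃ c, D.Adj b c := by
          rintro ⟨c, hc⟩
          exact hanti a b c h hc
        simp [h1, h2]
      · have h1 : ∃ c, D.Adj b c := ⟨a, h⟩
        have h2 : ¬ ∃ c, D.Adj a c := by
          rintro ⟨c, hc⟩
          exact hanti b a c h hc
        simp [h1, h2]
    obtain ⟨f, hf, he⟩ := AD968.antidirected T.Adj (hloop _ T hT1) k (by
        rw [Fintype.card_fin]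
        generalize Nat.card {p : Fin (2 * (k + 1) - 2) × Fin (2 * (k + 1) - 2) //
            T.Adj p.1 p.2} = M at hc ⊢
        obtain ⟨j, rfl⟩ : ∃ j, k = j + 1 := ⟨k - 1, by omega⟩
        have e1 : 2 * (j + 1 + 1) - 2 = 2 * j + 2 := by omega
        have e2 : 2 * j + 2 - 1 = 2 * j + 1 := by omega
        have e3 : j + 1 - 1 = j := by omega
        rw [e1, e2] at hc
        rw [e1, e3]
        nlinarith) (SimpleGraph.fromRel D.Adj) hTree
      (Fintype.card_fin _) (fun a => decide (∃ c, D.Adj a c)) hχ
    refine ⟨f, hf, fun a b hab => ?_⟩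
    have hne : a ≠ b := by
      rintro rfl
      exact hanti a a a hab hab
    have h := he a b (by rw [SimpleGraph.fromRel_adj]; exact ⟨hne, Or.inl hab⟩)
    have h1 : ∃ c, D.Adj a c := ⟨b, hab⟩
    simpa [AD968.Dir, h1] using h
  · intro n N hn hN T hT1 hT2 hbal D hD hTree
    refine main3 n N hn T hT1 T (fun _ _ h => h) hbal ?_ D hD hTree
    have hc := hcount N T hT1 hT2
    -- a regular tournament on N = 2n-2 vertices does not exist
    have hNpos : 0 < N := by omega
    rcases Nat.lt_or_ge (2 * n - 2) N with hlt | hge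
    · have h1 : 2 * (n - 2) < N - 1 := by omega
      have h2 : N * (2 * (n - 2)) < N * (N - 1) := Nat.mul_lt_mul_of_pos_left h1 hNpos
      nlinarith
    · have hNe : N = 2 * n - 2 := by omega
      have h1 : 2 * (n - 2) < N - 1 := by omega
      have h2 : N * (2 * (n - 2)) < N * (N - 1) := Nat.mul_lt_mul_of_pos_left h1 hNpos
      nlinarith
  · intro n N hn T hT1 _ H hH hbal hcard D hD hTree
    refine main3 n N hn T hT1 H hH hbal ?_ D hD hTree
    exact hcard

end Pool.Agent.Results.MP_f2ad72_co.AntidirectedAndRegular
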